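import Mathlib
import Pool.Agent.H26.BL8

set_option autoImplicit false

open Filter Topology
open scoped BoundedContinuousFunction

namespace Pool.Agent.Results.MP_11a8c1_an.Counterexample

open H26 BL0 BL1 BL3 BL7 BL8

def PosOp {X Y : BL} (T : X →L[ℝ] Y) : Prop := ∀ x, 0 ≤ x → 0 ≤ T x

def Bdd {X Y Z : BL} (φ : X → Y → Z) (C : ℝ) : Prop := ∀ x y, ‖φ x y‖ ≤ C * ‖x‖ * ‖y‖

def Bilin {X Y Z : BL} (φ : X → Y → Z) : Prop :=
  (∀ y, IsLinearMap ℝ fun x => φ x y) ∧ (∀ x, IsLinearMap ℝ (φ x)) ∧ ∃ C, Bdd φ C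

noncomputable def bnorm {X Y Z : BL} (φ : X → Y → Z) : ℝ := sInf {C | 0 ≤ C ∧ Bdd φ C}

def IsFremlin {X Y W : BL} (τ : X → Y → W) : Prop :=
  Bilin τ ∧ (∀ x y, |τ x y| = τ |x| |y|) ∧
  ∀ (Z : BL) (φ : X → Y → Z), Bilin φ → (∀ x y, 0 ≤ x → 0 ≤ y → 0 ≤ φ x y) →
    ∃ T : W →L[ℝ] Z, PosOp T ∧ (∀ x y, T (τ x y) = φ x y) ∧ ‖T‖ = bnorm φ ∧
      ∀ S : W →L[ℝ] Z, PosOp S → (∀ x y, S (τ x y) = φ x y) → S = T

lemma bnorm_eq {X Y Z : BL} (φ : X →L[ℝ] Y →L[ℝ] Z) : bnorm (fun x y => φ x y) = ‖φ‖ :=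
  le_antisymm (csInf_le ⟨0, fun _ h => h.1⟩ ⟨φ.opNorm_nonneg, φ.le_opNorm₂⟩)
    (le_csInf ⟨‖φ‖, φ.opNorm_nonneg, φ.le_opNorm₂⟩ fun _ h => φ.opNorm_le_bound₂ h.1 h.2)

lemma bundle {X Y W : BL} {τ : X → Y → W} (h : IsFremlin τ) : ∃ τ : X →L[ℝ] Y →L[ℝ] W,
    (∀ x y, |τ x y| = τ |x| |y|) ∧
    ∀ (Z : BL) (φ : X →L[ℝ] Y →L[ℝ] Z), (∀ x y, 0 ≤ x → 0 ≤ y → 0 ≤ φ x y) →
      ∃ T : W →L[ℝ] Z, PosOp T ∧ (∀ x y, T (τ x y) = φ x y) ∧ ‖T‖ = ‖φ‖ ∧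
        ∀ S : W →L[ℝ] Z, PosOp S → (∀ x y, S (τ x y) = φ x y) → S = T := by
  obtain ⟨⟨h1, h2, C, h3⟩, h4, h5⟩ := h
  exact ⟨(LinearMap.mk₂ ℝ τ (fun _ _ y => (h1 y).1 _ _) (fun _ _ y => (h1 y).2 _ _)
    (fun x => (h2 x).1) fun c x => (h2 x).2 c).mkContinuous₂ C h3, h4, fun Z φ h => bnorm_eq φ ▸
      h5 Z _ ⟨fun y => (φ.flip y).toLinearMap.isLinear, fun x => (φ x).toLinearMap.isLinear, _,
        φ.le_opNorm₂⟩ h⟩

lemma big (K : Type) [Nonempty K] (m : K → ℕ) : ∃ (E Z : BL) (Q : E →L[ℝ] Z) (π : K → Z →L[ℝ] real)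
    (ev : ℕ → K → E →L[ℝ] real), IsQuot Q ∧ (∀ p, IsHom (π p)) ∧ (∀ n p, IsHom (ev n p)) ∧
    (∀ z, (∀ p, π p z = 0) → z = 0) ∧ (∀ f : K → ℝ, (∀ p, |f p| ≤ 1) → ∃ z, ∀ p, π p z = f p) ∧
    (∀ z, (∀ p, 2 * |π p z| ≤ 1) → ‖z‖ ≤ 1) ∧
    (∀ z p, |π p z| ≤ 1 → (∀ q, q ≠ p → π q z = 0) → ‖z‖ ≤ 1) ∧ (∀ z r, 0 ≤ r → (∀ p, |π p z| ≤ r) → ‖z‖ ≤ 2 * r) ∧
    (∀ x n p, n < m p → 2 * ev n p x ≤ ‖x‖) ∧
    ∀ x, ∀ η > 0, ∃ N, ∀ n ≥ N, ∀ p, |ev n p x - π p (Q x)| ≤ η := by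
  obtain ⟨L, π, p1, p2, p3, p4⟩ := exists_linf fun _ : K => real
  let B := bcf (OnePoint ℕ) L
  let e : OnePoint ℕ → B →L[ℝ] L := fun t => BoundedContinuousFunction.evalCLM ℝ t
  have e1 : ∀ t x, ‖e t x‖ ≤ ‖x‖ := fun t x => x.norm_coe_le_norm t
  have e2 : ∀ x, Tendsto (fun n : ℕ => e n x) atTop (𝓝 (e OnePoint.infty x)) := fun x =>
    (OnePoint.continuous_iff_from_nat _).1 x.continuous
  let w : ℕ × K → ℝ := fun i => if i.1 < m i.2 then 2 else 1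
  have w1 : ∀ i, 1 ≤ w i ∧ w i ≤ 2 := fun i => by simp only [w]; split_ifs <;> norm_num
  let s : B → ℕ × K → ℝ := fun x i => w i * |π i.2 (e i.1 x)|
  have s1 : ∀ x i, s x i ≤ 2 * ‖x‖ := fun x i => mul_le_mul (w1 i).2 ((p2 _ _).trans (e1 _ _))
    (abs_nonneg _) zero_le_two
  have s2 : ∀ x, BddAbove (Set.range (s x)) := fun x => ⟨_, by rintro _ ⟨i, rfl⟩; exact s1 x i⟩
  have s3 : ∀ x, ‖x‖ ≤ ⨆ i, s x i := fun x => by
    have h0 : 0 ≤ ⨆ i, s x i := Real.iSup_nonneg fun i =>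
      mul_nonneg (zero_le_one.trans (w1 i).1) (abs_nonneg _)
    have h1 : ∀ n : ℕ, ‖e n x‖ ≤ ⨆ i, s x i := fun n => p3 _ _ h0 fun p =>
      (le_mul_of_one_le_left (abs_nonneg _) (w1 (n, p)).1).trans (le_ciSup (s2 x) (n, p))
    refine (BoundedContinuousFunction.norm_le h0).2 fun t => ?_
    induction t using OnePoint.rec with
    | infty => exact le_of_tendsto' (e2 x).norm h1
    | coe n => exact h1 n
  obtain ⟨E, ι, i1, -, i3, i4⟩ := exists_renorm B (Seminorm.ofSMulLE (fun x => ⨆ i, s x i)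
    (by simp [s]) (fun x y => ciSup_le fun i => le_trans (by
      simp only [s, map_add, ← mul_add]
      exact mul_le_mul_of_nonneg_left (abs_add_le _ _) (zero_le_one.trans (w1 i).1))
        (add_le_add (le_ciSup (s2 x) i) (le_ciSup (s2 y) i)))
    fun c x => ciSup_le fun i => le_trans (by simp [s, abs_mul, mul_left_comm])
      (mul_le_mul_of_nonneg_left (le_ciSup (s2 x) i) (norm_nonneg c))) 2
    (fun x => (s3 x).trans (le_mul_of_one_le_left ((norm_nonneg _).trans (s3 x)) one_le_two))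
    (fun x => ciSup_le (s1 x)) fun x y h => ciSup_mono (s2 y) fun i =>
      mul_le_mul_of_nonneg_left ((p1 _ _).ge.trans ((IsHom.mono (p1 _) (h i.1)).trans_eq (p1 _ _)))
        (zero_le_one.trans (w1 i).1)
  have h1 : IsHom ((e OnePoint.infty).comp ι.symm.toContinuousLinearMap) :=
    IsHom.comp (fun _ => rfl) i4
  obtain ⟨Z, κ, k1, k2, k3⟩ := exists_quot h1 (fun x => (e1 _ _).trans ((s3 _).trans_eq
    ((i1 _).symm.trans (by simp)))) one_le_two fun z => ⟨ι (.const _ z), congrArg (e OnePoint.infty) (ι.symm_apply_apply _), (i1 _).trans_le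
      (ciSup_le fun i => (s1 _ i).trans (by gcongr; exact BoundedContinuousFunction.norm_const_le z))⟩
  have h2 : ∀ (z : Z) (N : ℕ) r, 0 ≤ r → (∀ n ≥ N, ∀ p, w (n, p) * |π p (κ.symm z)| ≤ r) → ‖z‖ ≤ r :=
    fun z N r hr h => by
      have := IsQuot.norm_le k3 (ι (BoundedContinuousFunction.mkOfCompact ⟨fun t : OnePoint ℕ =>
        t.elim (κ.symm z) fun n => if N ≤ n then κ.symm z else 0,
        (OnePoint.continuous_iff_from_nat _).2 (tendsto_const_nhds.congr'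
          ((eventually_ge_atTop N).mono fun k hk => (if_pos hk).symm))⟩))
      rw [i1, ContinuousLinearMap.comp_apply, ContinuousLinearMap.comp_apply,
        show ∀ y, ι.symm.toContinuousLinearMap (ι y) = y from ι.symm_apply_apply] at this
      refine le_of_eq_of_le (congrArg _ (κ.apply_symm_apply z).symm) (this.trans (ciSup_le fun i => ?_))
      change w i * |π i.2 (if N ≤ i.1 then κ.symm z else 0)| ≤ r
      split_ifs with h'
      exacts [h _ h' _, by simpa using hr]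
  refine ⟨E, Z, _, fun p => (π p).comp κ.symm.toContinuousLinearMap, fun n p =>
    (π p).comp ((e n).comp ι.symm.toContinuousLinearMap), k3, fun p => IsHom.comp (p1 p) k2,
    fun n p => IsHom.comp (p1 p) (IsHom.comp (fun _ => rfl) i4), fun z h => κ.symm.map_eq_zero_iff.1
      (norm_le_zero_iff.1 (p3 _ 0 le_rfl fun p => (norm_eq_zero.2 (h p)).le)), fun f h =>
      let ⟨z, hz⟩ := p4 f 1 h; ⟨κ z, fun p => by simp [hz]⟩, fun z h => h2 z 0 1 zero_le_one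
      fun n _ p => (mul_le_mul_of_nonneg_right (w1 _).2 (abs_nonneg _)).trans (h p),
    fun z p h h' => h2 z (m p) 1 zero_le_one fun n hn q => ?_, fun z r hr h => h2 z 0 _ (by positivity)
      fun n _ p => mul_le_mul (w1 _).2 (h p) (abs_nonneg _) zero_le_two, fun x n p h => ?_,
    fun x η hη => ?_⟩
  · rcases eq_or_ne q p with rfl | hq
    · simp only [w]
      rw [if_neg hn.not_gt, one_mul]
      exact h
    · rw [show π q (κ.symm z) = 0 from h' q hq, abs_zero, mul_zero]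
      exact zero_le_one
  · obtain ⟨x, rfl⟩ := ι.surjective x
    have := le_ciSup (s2 x) (n, p)
    simp only [s, w, if_pos h] at this
    rw [i1]
    refine le_trans ?_ this
    simpa using le_abs_self (π p (e n x))
  · obtain ⟨N, hN⟩ := Metric.tendsto_atTop.1 (e2 (ι.symm x)) η hη
    refine ⟨N, fun n hn p => le_trans ?_ ((p2 p _).trans ((dist_eq_norm _ _).ge.trans (hN n hn).le))⟩
    simp

theorem result : ∃ X Y : BL, Proj X ∧ Proj Y ∧ HasUnit X ∧ HasUnit Y ∧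
    ∀ (W : BL) (τ : X → Y → W), IsFremlin τ → ¬ Proj W := by
  classical
  have key : ∀ I : Type, ∃ (P : BL) (u : P) (h : I → P) (χ : I → P →L[ℝ] real), Proj P ∧ HasUnit P ∧
      0 ≤ u ∧ (∀ i, 0 ≤ h i ∧ h i ≤ (2 : ℝ) • u ∧ ‖h i‖ ≤ 1) ∧ (∀ i, IsHom (χ i)) ∧
      (∀ i, χ i u = (1 / 2 : ℝ)) ∧ (∀ i j, χ i (h j) = if j = i then (1 : ℝ) else 0) ∧
      (∀ i x, |χ i x| ≤ ‖x‖) ∧ ∀ (Y : BL) (T : P →L[ℝ] Y), IsHom T → ‖T u‖ ≤ 1 →
        (∀ i, ‖T (h i)‖ ≤ 1) → ∀ x, ‖T x‖ ≤ ‖x‖ := fun I => by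
    obtain ⟨P, u, h, h1, h2, h3, h4, h5⟩ := exists_G I
    have h6 : ∀ (Y : BL) (T : P →L[ℝ] Y), IsHom T → ‖T u‖ ≤ 1 → (∀ i, ‖T (h i)‖ ≤ 1) →
        ∀ x, ‖T x‖ ≤ ‖x‖ := fun Y T t1 t2 t3 => (h5 Y _ _ t2 (IsHom.nonneg t1 h3) fun i =>
          ⟨IsHom.nonneg t1 (h4 i).1, map_smul T _ _ ▸ IsHom.mono t1 (h4 i).2.1, t3 i⟩).2 T t1 rfl
            fun _ => rfl
    choose χ c1 c2 c3 using fun i => (h5 real (1 / 2 : ℝ) (fun j => if j = i then (1 : ℝ) else 0)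
      (by norm_num) (by norm_num) fun j => by split_ifs <;> norm_num).1
    exact ⟨P, u, h, χ, h1, h2, h3, h4, c1, c2, c3, fun i => h6 real _ (c1 i) (by rw [c2]; norm_num)
      fun j => by rw [c3]; split_ifs <;> norm_num, h6⟩
  obtain ⟨X, u, h, χ, x1, x2, x3, x4, x5, x6, x7, x8, x9⟩ := key (ℕ → ℕ)
  obtain ⟨Y, v, k, η, y1, y2, y3, y4, y5, y6, y7, y8, y9⟩ := key ℕ
  refine ⟨X, Y, x1, y1, x2, y2, fun W τ hτ hW => ?_⟩
  obtain ⟨τ, t1, t2⟩ := bundle hτ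
  obtain ⟨E, Z, Q, π, ev, q1, q2, q3, q4, q5, q6, q7, q8, q9, q10⟩ :=
    big ((ℕ → ℕ) × ℕ) fun p => p.1 p.2
  have ext : ∀ {a b : Z}, (∀ p, π p a = π p b) → a = b := fun h =>
    sub_eq_zero.1 (q4 _ fun p => by rw [map_sub, h, sub_self])
  have b0 : ∀ (p : (ℕ → ℕ) × ℕ) x y, |χ p.1 x * η p.2 y| ≤ ‖x‖ * ‖y‖ := fun p x y =>
    (abs_mul _ _).trans_le (mul_le_mul (x8 _ _) (y8 _ _) (abs_nonneg _) (norm_nonneg _))
  have : ∀ x y, ∃ z, ∀ p, π p z = χ p.1 x * η p.2 y := fun x y => by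
    have h0 : 0 < ‖x‖ * ‖y‖ + 1 := by positivity
    obtain ⟨z, hz⟩ := q5 (fun p => (‖x‖ * ‖y‖ + 1)⁻¹ * (χ p.1 x * η p.2 y)) fun p => by
      rw [abs_mul, abs_of_pos (inv_pos.2 h0), inv_mul_le_one₀ h0]; linarith [b0 p x y]
    exact ⟨(‖x‖ * ‖y‖ + 1) • z, fun p => by rw [map_smul, hz, smul_eq_mul, mul_inv_cancel_left₀ h0.ne']⟩
  choose f hf using this
  obtain ⟨φ, f1⟩ : ∃ φ : X →L[ℝ] Y →L[ℝ] Z, ∀ x y p, π p (φ x y) = χ p.1 x * η p.2 y :=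
    ⟨(LinearMap.mk₂ ℝ f (fun _ _ _ => ext fun p => by simp [hf, add_mul])
      (fun _ _ _ => ext fun p => by simp [hf, mul_assoc]) (fun _ _ _ => ext fun p => by simp [hf, mul_add])
      fun _ _ _ => ext fun p => by simp [hf, mul_left_comm]).mkContinuous₂ 2 fun x y =>
        (q8 _ _ (by positivity) fun p => (congrArg _ (hf x y p)).trans_le (b0 p x y)).trans_eq
          (mul_assoc _ _ _).symm, hf⟩
  have f2 : ∀ x y, |φ x y| = φ |x| |y| := fun x y => ext fun p => by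
    rw [q2, f1, f1, x5, y5, abs_mul]
  have hom1 : ∀ {Z : BL} (ψ : X →L[ℝ] Y →L[ℝ] Z), (∀ x y, |ψ x y| = ψ |x| |y|) → (∀ y, 0 ≤ y →
      IsHom (ψ.flip y)) ∧ (∀ x, 0 ≤ x → IsHom (ψ x)) ∧ ∀ x y, 0 ≤ x → 0 ≤ y → 0 ≤ ψ x y :=
    fun ψ h => ⟨fun y hy x => by simp [h, abs_of_nonneg hy], fun x hx y => by
      simp [h, abs_of_nonneg hx], fun x y hx hy => by
      rw [← abs_of_nonneg hx, ← abs_of_nonneg hy, ← h]; exact abs_nonneg _⟩
  have f3 : ‖φ‖ ≤ 1 := ContinuousLinearMap.opNorm_le_bound₂ _ zero_le_one fun x y => by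
    rcases eq_or_ne x 0 with rfl | hx
    · simp
    have h0 := norm_pos_iff.2 hx
    have h1 : ∀ y, 0 ≤ y → (∀ j, |η j y| ≤ 1) → (∀ a, ‖φ (h a) y‖ ≤ 1) →
        ‖φ (‖x‖⁻¹ • |x|) y‖ ≤ 1 := fun y hy h2 h3 => (x9 Z _ ((hom1 φ f2).1 y hy) (q6 _ fun p => by
          rw [ContinuousLinearMap.flip_apply, f1, x6, abs_mul, abs_of_pos one_half_pos]
          linarith [h2 p.2]) h3 _).trans_eq (by
        rw [norm_smul, norm_inv, norm_norm, norm_abs_eq_norm, inv_mul_cancel₀ h0.ne'])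
    have h2 := y9 Z _ ((hom1 φ f2).2.1 _ (smul_nonneg (inv_pos.2 h0).le (abs_nonneg x)))
      (h1 v y3 (fun j => by rw [y6]; norm_num [abs_of_pos]) fun a => q6 _ fun p => by
        rw [f1, x7, y6]; split_ifs <;> norm_num [abs_of_pos])
      (fun j => h1 _ (y4 j).1 (fun i => by rw [y7]; split_ifs <;> norm_num) fun a => q7 _ (a, j)
        (by simp [f1, x7, y7]) fun q hq => by
          rw [f1, x7, y7]
          split_ifs with h h'
          exacts [absurd (Prod.ext h.symm h'.symm) hq, mul_zero _, zero_mul _, zero_mul _]) |y|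
    rwa [map_smul, ContinuousLinearMap.smul_apply, ← f2, norm_smul, norm_inv, norm_norm,
      norm_abs_eq_norm, norm_abs_eq_norm, inv_mul_le_iff₀ h0, ← one_mul ‖x‖] at h2
  obtain ⟨T, T1, T2, T3, -⟩ := t2 Z φ (hom1 φ f2).2.2
  have T4 : IsHom T := fun w => ext fun p => by
    have g0 : PosOp ((π p).comp T) := fun w hw => IsHom.nonneg (q2 p) (T1 w hw)
    refine (extreme_hom ((π p).comp T) g0 (fun g hg => ?_) w).trans (q2 p _).symm
    have g1 : ∀ x y, 0 ≤ x → 0 ≤ y → 0 ≤ g (τ x y) ∧ g (τ x y) ≤ χ p.1 x * η p.2 y :=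
      fun x y hx hy => by simpa [T2, f1] using hg _ ((hom1 τ t1).2.2 x y hx hy)
    have g2 : ∀ x y, 0 ≤ y → g (τ x y) = (4 * g (τ u v)) * (χ p.1 x * η p.2 y) := fun x y hy => by
      have h1 := dom_hom (x5 p.1) (γ := g.comp (τ.flip y)) (c := η p.2 y) (fun x hx => by
        simpa [mul_comm] using g1 x y hx hy) u x
      have h2 := dom_hom (y5 p.2) (γ := g.comp (τ u)) (c := χ p.1 u) (fun y hy => g1 u y x3 hy) v y
      simp only [x6, y6, ContinuousLinearMap.comp_apply, ContinuousLinearMap.flip_apply] at h1 h2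
      linear_combination 2 * h1 + 4 * χ p.1 x * h2
    obtain ⟨S, -, -, -, hS⟩ := t2 real ((ContinuousLinearMap.compL ℝ Y W ℝ g).comp τ)
      fun x y hx hy => (g1 x y hx hy).1
    refine ⟨4 * g (τ u v), (hS g (fun w hw => (hg w hw).1) fun _ _ => rfl).trans (hS _ (fun w hw =>
      mul_nonneg (mul_nonneg zero_le_four (g1 u v x3 y3).1) (g0 w hw)) fun x y => ?_).symm⟩
    change 4 * g (τ u v) * π p (T (τ x y)) = g (τ x y)
    rw [T2, f1, ← posPart_sub_negPart y, map_sub, map_sub, map_sub, g2 _ _ (posPart_nonneg y),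
      g2 _ _ (negPart_nonneg y)]
    ring
  have t3 : ‖τ‖ ≤ 1 := by
    obtain ⟨S, -, -, h1, h2⟩ := t2 W τ (hom1 τ t1).2.2
    rw [← h1, ← h2 (.id ℝ W) (fun _ h => h) fun _ _ => rfl]
    exact ContinuousLinearMap.norm_id_le
  obtain ⟨S, S1, S2, S3⟩ := hW E Z Q q1 T T4 (1 / 4) (by norm_num)
  have S4 : ∀ x y, ∃ N, ∀ n ≥ N, ∀ p, |ev n p (S (τ x y)) - χ p.1 x * η p.2 y| ≤ 1 / 20 :=
    fun x y => by
      have := q10 (S (τ x y)) (1 / 20) (by norm_num)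
      simpa only [show Q (S (τ x y)) = T (τ x y) from congrArg (· (τ x y)) S2, T2, f1] using this
  obtain ⟨N, hN⟩ := S4 u v
  choose A hA using fun a => S4 (h a) v
  choose B hB using fun j => S4 u (k j)
  let a : ℕ → ℕ := fun j => N + B j + j + 1
  let n := N + B (A a) + A a
  let g := (ev n (a, A a)).comp S
  have g0 : IsHom g := IsHom.comp (q3 _ _) S1
  have h1 := abs_le.1 (hN n (by omega) (a, A a))
  have h2 := abs_le.1 (hA a n (by omega) (a, A a))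
  have h3 := abs_le.1 (hB (A a) n (by omega) (a, A a))
  have h4 := (q9 (S (τ (h a) (k (A a)))) n (a, A a) n.lt_succ_self).trans ((S.le_of_opNorm_le
    (S3.trans (mul_le_of_le_one_right (by norm_num) (T3.trans_le f3))) _).trans
      (mul_le_of_le_one_right (by norm_num) ((τ.le_of_opNorm₂_le_of_le t3 (x4 _).2.2
        (y4 _).2.2).trans_eq (by simp))))
  have h5 := dom_hom (IsHom.comp g0 ((hom1 τ t1).1 v y3)) (γ := g.comp (τ.flip (k (A a)))) (c := 2)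
    (fun x hx => ⟨IsHom.nonneg g0 ((hom1 τ t1).2.2 _ _ hx (y4 _).1), by
      simpa using IsHom.mono (IsHom.comp g0 ((hom1 τ t1).2.1 x hx)) (y4 (A a)).2.1⟩) u (h a)
  simp only [x6, x7, y6, y7, if_pos, g, ContinuousLinearMap.comp_apply,
    ContinuousLinearMap.flip_apply] at h1 h2 h3 h5
  nlinarith

end Pool.Agent.Results.MP_11a8c1_an.Counterexample
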